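import Pool.Agent.AT6.Stmts1
import Pool.Agent.Helper45_AT5.KER

/-!
# Squad AT6, row KRF
-/

open scoped BigOperators

noncomputable section

namespace Pool.Agent.PP.T6.H89

open Pool.Agent.Helper51_AWC Pool.Agent.Helper79_WRA Pool.Agent.PP Pool.Agent.PP.KF
open Pool.Agent.PP.K9 Pool.Agent.PP.K9.H97 Pool.Agent.PP.H75 Pool.Agent.PP.T3 Pool.Agent.PP.T2

attribute [local instance] Ideal.Quotient.field

theorem krf : KrfStmt := by
  intro ℓ hℓ M _ hM G _ _ X b hb φ hφ hreg s hs hsr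
  classical
  have := Fintype.ofFinite G
  have := Fintype.ofFinite X
  set b' : X → FF M := fun t => b t with hb'
  set S := (K9.H25.irrE_finite M b').toFinset with hS
  have hmem : ∀ κ, κ ∈ S ↔ κ ∈ IrrE M b' := fun κ => Set.Finite.mem_toFinset _
  set s' : X := ⟨s, hs⟩ with hs'
  set f : X → ℂ := fun t => φ (t : G) with hf
  have hfc : ∀ x y : X, f (y * x * y⁻¹) = f x := by
    intro x y
    exact hφ x x.2 y y.2
  have h3 : ∀ c : X, ¬ Reg ℓ c → ∑ κ ∈ S, κ s' * κ c⁻¹ = 0 := by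
    intro c hc
    have hsr' : Reg ℓ s' := by
      unfold Reg at hsr ⊢
      rwa [← Subgroup.orderOf_coe]
    have h4 := T3.H62.wbo_ ℓ M hM X b' hb.idem s'⁻¹ c⁻¹ (K9.H25.reg_inv.2 hsr')
      (fun h => hc (K9.H25.reg_inv.1 h))
    rw [finsum_mem_eq_finite_toFinset_sum _ (K9.H25.irrE_finite M b')] at h4
    simpa using h4
  have h1 : gv M X s b φ =
      (Nat.card X : ℂ)⁻¹ * ∑ c : X, (∑ κ ∈ S, κ s' * κ c⁻¹) * f c := by
    unfold gv gbv
    rw [finsum_eq_sum_of_fintype]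
    have h2 : ∀ c : X, eh M b' c * φ (s * (c : G)) =
        (Nat.card X : ℂ)⁻¹ * ∑ κ ∈ S, κ 1 * (κ c⁻¹ * f (s' * c)) := by
      intro c
      rw [K9.H25.eh_eq, Nat.card_eq_fintype_card, mul_assoc, Finset.sum_mul]
      congr 1
      refine Finset.sum_congr rfl fun κ _ => ?_
      simp only [hf, hs', Subgroup.coe_mul]
      rw [mul_assoc]
    rw [Finset.sum_congr rfl fun c _ => h2 c, ← Finset.mul_sum, Finset.sum_comm]
    congr 1
    have h3 : ∀ κ ∈ S, ∑ c : X, κ 1 * (κ c⁻¹ * f (s' * c)) = ∑ c : X, κ s' * κ c⁻¹ * f c := by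
      intro κ hκ
      rw [← Finset.mul_sum, T5.H45.conv_cl ((hmem κ).1 hκ).1 hfc, Finset.mul_sum]
      refine Finset.sum_congr rfl fun c _ => ?_
      rw [mul_assoc]
    rw [Finset.sum_congr rfl h3, Finset.sum_comm]
    refine Finset.sum_congr rfl fun c _ => ?_
    rw [Finset.sum_mul]
  rw [h1, Finset.sum_eq_zero, mul_zero]
  intro c _
  by_cases hc : Reg ℓ c
  · have : f c = 0 := hreg c c.2 (T3.H62.reg_coe hc)
    rw [this, mul_zero]
  · rw [h3 c hc, zero_mul]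

end Pool.Agent.PP.T6.H89
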